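import Pool.Agent.H543R3.PC.Final

set_option autoImplicit false

/-!
# The Borel complexity of: some `NP`-complete set has a p-optimal proof system

The set of the oracles relative to which some `NP`-complete language has a p-optimal proof system is
exactly `Σ⁰₄`: it is `Σ⁰₄` and every `Σ⁰₄` subset of a zero-dimensional second countable space is a
continuous preimage of it. This file states a theorem of the library `Pool.Agent.H543R3.PC` of the
starting files (helper543 and others), which no result file stated before.
-/

namespace Pool.Agent.Results.MP_c56612_lc.BorelComplexity

open Pool.Agent.H628R3.RO

/-- Relative to `A` some `NP`-complete language has a p-optimal proof system. -/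
def HasOptimal (A : Oracle) : Prop :=
  ∃ L : Set (List Bool), IsNP A L ∧ NPHardRel A L ∧ ∃ P, IsPOptimal A L P

/-- The set of the oracles relative to which some `NP`-complete language has a p-optimal proof
system is `Σ⁰₄`-complete. -/
theorem result : H556R2.Sigma04Complete {A : Oracle | HasOptimal A} :=
  Pool.Agent.H543R3.PC.poptS_complete

end Pool.Agent.Results.MP_c56612_lc.BorelComplexity
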