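import Pool.Agent.TH755.PO.Main

/-!
# MP_c56612_lc: relative to a random oracle, proofs are exponentially hard to translate

The question is whether some `NP`-complete language has a proof system `P` which `p`-simulates
every proof system `Q` for the language, that is, `Q`-proofs can be translated into `P`-proofs in
polynomial time. For almost every oracle the answer is negative in a strong sense, for all `NP`-hard
languages: the translation of the `Q`-proofs of length `n` takes time exponential in `n`, even if
the proofs `1^n` only are to be translated, and even if the translating algorithm may ask
adaptively for solutions of the instances of a total `NP` search problem `T` fixed before `Q`.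

`Run T F x c X r []` (in `Pool.Agent.TH755.PO.Run`) says that the computation on input `x`, the next
action of which is computed by `F` from `x` and the list of the solutions received so far, makes
calls of length at most `c` and stops within `r` rounds with a result in `X`, whichever solutions it
receives. The budget `m` is given to `F` in unary; the numbers of rounds and the lengths of the calls
are at most `q (n + m)`.
-/

set_option autoImplicit false

namespace Pool.Agent.Results.MP_c56612_lc.RandomOracle

open MeasureTheory Pool.Agent.NPC Pool.Agent.H628R3.RO Pool.Agent.TH755.PO

/-- For almost every oracle `A`, for every language `L` hard for `NP` relative to `A`, every proof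
system `P` for `L` and every total `NP` search problem `T` there is a proof system `Q` for `L` such
that an algorithm with calls to `T` which, for arbitrarily large `n`, translates the `Q`-proof `1^n`
into a `P`-proof in time polynomial in `n + m` needs `m` with `2 ^ n ≤ m ^ k`, where `k` depends on
the algorithm only. -/
theorem result : ∀ᵐ A ∂randomOracle, ∀ L : Set (List Bool), NPHardRel A L →
    ∀ P, IsProofSystem A L P → ∀ T, IsTFNP A T → ∃ Q, IsProofSystem A L Q ∧
      ∀ F, IsFP A F → ∀ q : Polynomial ℕ, ∃ k : ℕ, ∀ N, ∃ n ≥ N, ∀ m : ℕ,
        Run T F (pairBits (List.replicate n true) (List.replicate m true)) (q.eval (n + m))
          {v | P v = Q (List.replicate n true)} (q.eval (n + m)) [] → 2 ^ n ≤ m ^ k :=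
  main_R

end Pool.Agent.Results.MP_c56612_lc.RandomOracle
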