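import Pool.Agent.TH672.SD.Thr

set_option autoImplicit false

/-!
# Every oracle: very few strings destroy all p-optimal proof systems for `NP`-complete sets

The construction is in the library `Pool.Agent.TH672.SD`; it uses the libraries of the starting
files on oracle algorithms (`Pool.Agent.H628R3.RO`) and on the join of oracles
(`Pool.Agent.W900.SP`).
-/

namespace Pool.Agent.Results.MP_c56612_lc.SparseDestruction

open Filter Pool.Agent.H628R3.RO Pool.Agent.W900.SP Pool.Agent.TH672.SD
open Pool.Agent.NPC (pairBits)
open Pool.Agent.W900.SP (join)

/-- `T` has at most `g n` strings of length at most `n`, for all `n`. -/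
def Few (g : ℕ → ℕ) (T : Oracle) : Prop :=
  ∀ n, {q | T q = true ∧ q.length ≤ n}.Finite ∧ {q | T q = true ∧ q.length ≤ n}.ncard ≤ g n

/-- The input `x` together with a pad of length `2 ^ (|x| / k)`: with this input an algorithm that
is fast in the length of its input may run for a time polynomial in `2 ^ (|x| / k)`. -/
def padded (k : ℕ) (x : List Bool) : List Bool :=
  pairBits x (List.replicate (2 ^ (x.length / k)) true)

/-- Relative to `A` some `NP`-complete set has a p-optimal proof system. -/
def HasOptimal (A : Oracle) : Prop :=
  ∃ L : Set (List Bool), IsNP A L ∧ NPHardRel A L ∧ ∃ P, IsPOptimal A L P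

/-- Relative to `A`, for every set `L` to which all languages in `UP` reduce, no proof system `P`
for `L` is p-optimal; there is a proof system `Q` for `L` whose proofs cannot be translated into
`P`-proofs in time `2 ^ o(n)`: every algorithm `h` which runs in time polynomial in `2 ^ (n / k)`,
`k` large, fails to compute from `w` a `P`-proof of the statement proved by the `Q`-proof `w`, for
arbitrarily long `w`. -/
def NoTranslation (A : Oracle) : Prop := ∀ L, (∀ L', IsUP A L' → Red A L' L) →
  ∀ P, IsProofSystem A L P → ¬ IsPOptimal A L P ∧ ∃ Q, IsProofSystem A L Q ∧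
    ∀ h : Alg, ∃ k₀, ∀ k ≥ k₀, ∀ N, ∃ w : List Bool, N ≤ w.length ∧
      ¬ ∃ v, h.out A (padded k w) = some v ∧ P v = Q w

/-- For every oracle `O` and every function `g`: if `g` tends to infinity, however slowly, then
there is a second oracle `T` with at most `g n` strings of length at most `n`, for all `n`, such
that relative to `join O T` no `NP`-complete set has a p-optimal proof system, in the strong sense
of `NoTranslation`; and if `g` does not tend to infinity then no second oracle `T` with at most
`g n` strings of length at most `n` changes the answer to the question whether there is a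
p-optimal proof system for an `NP`-complete set. -/
theorem result (O : Oracle) (g : ℕ → ℕ) :
    (Tendsto g atTop atTop → ∃ T : Oracle, Few g T ∧ NoTranslation (join O T) ∧
      ¬ HasOptimal (join O T)) ∧
    (¬ Tendsto g atTop atTop → ∀ T : Oracle, Few g T →
      (HasOptimal (join O T) ↔ HasOptimal O)) := by
  refine threshold (X := HasOptimal) (Y := NoTranslation) ?_ ?_ ?_ O g
  · intro A A' h hA
    simpa only [HasOptimal, IsNP, NPHardRel, Red, IsPOptimal, IsProofSystem, h] using hA
  · rintro A hA ⟨L, _, hL, P, hP⟩
    exact (hA L (fun L' h' => hL L' (IsUP.isNP h')) P hP.1).1 hP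
  · intro O g hg
    obtain ⟨T, h1, _, _, _, h2⟩ := main O g hg
    exact ⟨T, h1, h2⟩

end Pool.Agent.Results.MP_c56612_lc.SparseDestruction
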